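import Mathlib
import Pool.Agent.H773.IE.SH

/-!
# Howe-Moore theorem: decay along diagonal matrices, reduction to the diagonal matrices
(project IE, helper773)
-/

set_option autoImplicit false

open MeasureTheory Set Filter Topology
open scoped ENNReal

namespace Pool.Agent.H400.IE

open Pool.Agent.H773.IE

theorem dgm_coe {d : ℕ} (a : Fin d → ℝ) (ha : (Matrix.diagonal a).det = 1) :
    (dgm a ha : Matrix (Fin d) (Fin d) ℝ) = Matrix.diagonal a := rfl

theorem conj_dgm {d : ℕ} (a : Fin d → ℝ) (ha : (Matrix.diagonal a).det = 1) {i j : Fin d}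
    (hij : i ≠ j) (hi : a i ≠ 0) (t : ℝ) :
    (dgm a ha)⁻¹ * Matrix.SpecialLinearGroup.transvection hij t * dgm a ha =
      Matrix.SpecialLinearGroup.transvection hij (t * (a j / a i)) := by
  rw [mul_assoc, inv_mul_eq_iff_eq_mul]
  refine Subtype.ext ?_
  rw [Matrix.SpecialLinearGroup.coe_mul, Matrix.SpecialLinearGroup.coe_mul,
    Matrix.SpecialLinearGroup.transvection_coe, Matrix.SpecialLinearGroup.transvection_coe,
    dgm_coe, add_mul, mul_add, one_mul, mul_one]
  congr 1
  ext k l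
  rw [Matrix.mul_diagonal, Matrix.diagonal_mul]
  by_cases h : i = k ∧ j = l
  · obtain ⟨rfl, rfl⟩ := h
    rw [Matrix.single_apply_same, Matrix.single_apply_same]
    field_simp
  · rw [Matrix.single_apply_of_ne, Matrix.single_apply_of_ne, zero_mul, mul_zero]
    · exact h
    · exact h

theorem continuous_transvection {d : ℕ} {i j : Fin d} (hij : i ≠ j) :
    Continuous fun t : ℝ => Matrix.SpecialLinearGroup.transvection hij t := by
  refine Continuous.subtype_mk ?_ _
  unfold Matrix.transvection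
  refine continuous_const.add ?_
  refine continuous_matrix fun k l => ?_
  by_cases h : i = k ∧ j = l
  · obtain ⟨rfl, rfl⟩ := h
    simp only [Matrix.single_apply_same]
    exact continuous_id
  · have : ∀ t : ℝ, Matrix.single i j t k l = 0 := fun t => Matrix.single_apply_of_ne _ _ _ _ _ h
    simp only [this]
    exact continuous_const

theorem t_HMd (hweak : S_weak) (hcon : S_contr) (h3 : S_H3) (h4 : S_H4) : S_HMd := by
  intro d H _ _ _ U hU hinv ι 𝒰 a ha i j hij hpos hlim v w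
  obtain ⟨v₀, hv₀, -⟩ := hweak H ι 𝒰 (fun x => U (dgm (a x) (ha x)) v) ‖v‖
    (fun x => (hU.iso _ _).le)
  have h1 : ∀ t : ℝ, U (Matrix.SpecialLinearGroup.transvection hij t) v₀ = v₀ := by
    intro t
    refine hcon (SLR d) H U hU ι 𝒰 (fun x => dgm (a x) (ha x)) v v₀ hv₀ _ ?_
    have h2 : (fun x => (dgm (a x) (ha x))⁻¹ * Matrix.SpecialLinearGroup.transvection hij t *
        dgm (a x) (ha x)) = fun x => Matrix.SpecialLinearGroup.transvection hij
          (t * (a x j / a x i)) := by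
      funext x
      exact conj_dgm (a x) (ha x) hij (hpos x i).ne' t
    rw [h2]
    have h3 := (continuous_transvection (d := d) hij).tendsto 0
    have h4 : Matrix.SpecialLinearGroup.transvection hij (0 : ℝ) = 1 :=
      Matrix.SpecialLinearGroup.transvection_coeff_zero hij
    rw [h4] at h3
    refine h3.comp ?_
    have h5 := hlim.const_mul t
    rwa [mul_zero] at h5
  have h2 : ∀ g, U g v₀ = v₀ := h4 d H U hU i j hij v₀ (h3 d H U hU i j hij v₀ h1)
  have h5 := hv₀ w
  rw [hinv v₀ h2, inner_zero_left] at h5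
  exact h5

/-- limits in compact sets along ultrafilters -/
theorem ult_lim {ι X : Type} [TopologicalSpace X] {s : Set X} (hs : IsCompact s)
    (𝒰 : Ultrafilter ι) (f : ι → X) (hf : ∀ᶠ i in (𝒰 : Filter ι), f i ∈ s) :
    ∃ x ∈ s, Tendsto f 𝒰 (𝓝 x) := by
  obtain ⟨x, hx, h⟩ := hs.ultrafilter_le_nhds' (𝒰.map f) (Ultrafilter.mem_map.2 hf)
  exact ⟨x, hx, h⟩

theorem rep_inner {G H : Type} [Group G] [TopologicalSpace G] [NormedAddCommGroup H]
    [InnerProductSpace ℝ H] {U : G →* (H →L[ℝ] H)} (hU : Rep U) (g : G) (x y : H) :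
    inner ℝ (U g x) y = inner ℝ x (U g⁻¹ y) := by
  have h1 : U g (U g⁻¹ y) = y := by
    have h2 : U (g * g⁻¹) y = U g (U g⁻¹ y) := by
      rw [map_mul]
      rfl
    rw [← h2, mul_inv_cancel, map_one]
    rfl
  have h2 := LinearIsometry.inner_map_map (𝕜 := ℝ)
    (⟨(U g).toLinearMap, hU.iso g⟩ : H →ₗᵢ[ℝ] H) x (U g⁻¹ y)
  change inner ℝ (U g x) (U g (U g⁻¹ y)) = _ at h2
  rw [h1] at h2
  exact h2

theorem t_HM (hKAK : S_KAK) (ho : S_orthc) (htop : S_top) (hd : S_HMd) : S_HM := by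
  intro d hd2 H _ _ _ U hU hinv v w
  have hne : Nonempty (Fin d) := ⟨⟨0, by omega⟩⟩
  have hlc : LocallyCompactSpace (SLR d) := (htop d).1
  rw [tendsto_iff_ultrafilter]
  intro 𝒰 h𝒰
  choose k₁ k₂ a ha hpos hk₁ hk₂ hg using hKAK d hd2
  obtain ⟨K₁, hK₁, hl₁⟩ := ult_lim (ho d) 𝒰 k₁ (Eventually.of_forall hk₁)
  obtain ⟨K₂, hK₂, hl₂⟩ := ult_lim (ho d) 𝒰 k₂ (Eventually.of_forall hk₂)
  -- the largest and the smallest entry
  have hmax : ∀ g, ∃ i, ∀ k, a g k ≤ a g i := fun g => Finite.exists_max (a g)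
  have hmin : ∀ g, ∃ i, ∀ k, a g i ≤ a g k := fun g => Finite.exists_min (a g)
  choose I hI using hmax
  choose J hJ using hmin
  obtain ⟨⟨i, j⟩, hij⟩ := Ultrafilter.eq_pure_of_finite (𝒰.map fun g => (I g, J g))
  have hev : ∀ᶠ g in (𝒰 : Filter (SLR d)), I g = i ∧ J g = j := by
    have h1 : {(i, j)} ∈ 𝒰.map fun g => (I g, J g) := by
      rw [hij]
      exact Ultrafilter.mem_pure.2 rfl
    filter_upwards [Ultrafilter.mem_map.1 h1] with g hg
    exact ⟨congrArg Prod.fst hg, congrArg Prod.snd hg⟩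
  -- the quotient tends to zero
  have hlim : Tendsto (fun g => a g j / a g i) 𝒰 (𝓝 0) := by
    rw [Metric.tendsto_nhds]
    intro ε hε
    by_contra hcon
    rw [← Ultrafilter.frequently_iff_eventually, not_frequently] at hcon
    have hb : ∀ᶠ g in (𝒰 : Filter (SLR d)), a g ∈ Set.pi Set.univ
        (fun _ : Fin d => Set.Icc (min ε 1) (max (1 / ε) 1)) := by
      filter_upwards [hcon, hev] with g h1 h2
      have hi : ∀ k, a g k ≤ a g i := fun k => by
        have := hI g k
        rwa [h2.1] at this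
      have hj : ∀ k, a g j ≤ a g k := fun k => by
        have := hJ g k
        rwa [h2.2] at this
      have hp : ∏ k, a g k = 1 := by
        rw [← Matrix.det_diagonal]
        exact ha g
      have hi1 : 1 ≤ a g i := by
        by_contra hlt
        push Not at hlt
        have : ∏ k, a g k < ∏ k : Fin d, (1 : ℝ) :=
          Finset.prod_lt_prod_of_nonempty (fun k _ => hpos g k)
            (fun k _ => lt_of_le_of_lt (hi k) hlt) Finset.univ_nonempty
        rw [hp, Finset.prod_const_one] at this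
        exact lt_irrefl _ this
      have hj1 : a g j ≤ 1 := by
        by_contra hlt
        push Not at hlt
        have : ∏ k : Fin d, (1 : ℝ) < ∏ k, a g k :=
          Finset.prod_lt_prod_of_nonempty (fun k _ => one_pos)
            (fun k _ => lt_of_lt_of_le hlt (hj k)) Finset.univ_nonempty
        rw [hp, Finset.prod_const_one] at this
        exact lt_irrefl _ this
      have h3 : ε ≤ a g j / a g i := by
        rw [Real.dist_eq, sub_zero, abs_of_pos (div_pos (hpos g j) (hpos g i))] at h1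
        push Not at h1
        exact h1
      rw [le_div_iff₀ (hpos g i)] at h3
      have h4 : ε ≤ a g j := by nlinarith
      have h5 : a g i ≤ 1 / ε := by
        rw [le_div_iff₀ hε, mul_comm]
        linarith
      intro k _
      exact ⟨(min_le_left _ _).trans (h4.trans (hj k)),
        (hi k).trans (h5.trans (le_max_left _ _))⟩
    obtain ⟨A, -, hA⟩ := ult_lim (isCompact_univ_pi fun _ : Fin d => isCompact_Icc) 𝒰 a hb
    have hdet : (Matrix.diagonal A).det = 1 := by
      have h1 : Tendsto (fun g => (Matrix.diagonal (a g)).det) 𝒰 (𝓝 (Matrix.diagonal A).det) :=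
        ((continuous_id.matrix_diagonal.matrix_det).tendsto A).comp hA
      have h2 : (fun g => (Matrix.diagonal (a g)).det) = fun _ => (1 : ℝ) := funext ha
      rw [h2] at h1
      exact tendsto_nhds_unique h1 tendsto_const_nhds
    have hdg : Tendsto (fun g => dgm (a g) (ha g)) 𝒰 (𝓝 (dgm A hdet)) := by
      refine tendsto_subtype_rng.2 ?_
      exact ((continuous_id.matrix_diagonal).tendsto A).comp hA
    have hid : Tendsto (fun g : SLR d => g) 𝒰 (𝓝 (K₁ * dgm A hdet * K₂)) := by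
      have h1 := (hl₁.mul hdg).mul hl₂
      refine h1.congr fun g => ?_
      exact (hg g).symm
    obtain ⟨S, hS, hS2⟩ := exists_compact_mem_nhds (K₁ * dgm A hdet * K₂)
    have h1 : ∀ᶠ g in (𝒰 : Filter (SLR d)), g ∈ S := hid hS2
    have h2 : ∀ᶠ g in (𝒰 : Filter (SLR d)), g ∈ Sᶜ := h𝒰 hS.compl_mem_cocompact
    have h3 : ∀ᶠ g in (𝒰 : Filter (SLR d)), False := by
      filter_upwards [h1, h2] with g h3 h4
      exact h4 h3
    exact 𝒰.neBot.ne (eventually_false_iff_eq_bot.1 h3)
  have hne : i ≠ j := by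
    rintro rfl
    have h1 : (fun g => a g i / a g i) = fun _ => (1 : ℝ) := funext fun g => div_self (hpos g i).ne'
    rw [h1] at hlim
    exact one_ne_zero (tendsto_nhds_unique tendsto_const_nhds hlim)
  -- the three terms
  have hT3 : Tendsto (fun g => inner ℝ (U (dgm (a g) (ha g)) (U K₂ v)) (U K₁⁻¹ w)) 𝒰 (𝓝 0) :=
    hd d H U hU hinv _ 𝒰 a ha i j hne hpos hlim _ _
  have hT1 : Tendsto (fun g => inner ℝ (U (dgm (a g) (ha g)) (U (k₂ g) v))
      (U (k₁ g)⁻¹ w - U K₁⁻¹ w)) 𝒰 (𝓝 0) := by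
    have h1 : Tendsto (fun g => ‖v‖ * ‖U (k₁ g)⁻¹ w - U K₁⁻¹ w‖) 𝒰 (𝓝 0) := by
      have h2 : Tendsto (fun g => U (k₁ g)⁻¹ w) 𝒰 (𝓝 (U K₁⁻¹ w)) :=
        ((hU.cont w).tendsto _).comp hl₁.inv
      have h3 := (tendsto_iff_norm_sub_tendsto_zero.1 h2).const_mul ‖v‖
      rwa [mul_zero] at h3
    refine squeeze_zero_norm (fun g => ?_) h1
    refine (norm_inner_le_norm _ _).trans ?_
    rw [hU.iso, hU.iso]
  have hT2 : Tendsto (fun g => inner ℝ (U (dgm (a g) (ha g)) (U (k₂ g) v - U K₂ v))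
      (U K₁⁻¹ w)) 𝒰 (𝓝 0) := by
    have h1 : Tendsto (fun g => ‖U (k₂ g) v - U K₂ v‖ * ‖U K₁⁻¹ w‖) 𝒰 (𝓝 0) := by
      have h2 : Tendsto (fun g => U (k₂ g) v) 𝒰 (𝓝 (U K₂ v)) :=
        ((hU.cont v).tendsto _).comp hl₂
      have h3 := (tendsto_iff_norm_sub_tendsto_zero.1 h2).mul_const ‖U K₁⁻¹ w‖
      rwa [zero_mul] at h3
    refine squeeze_zero_norm (fun g => ?_) h1
    refine (norm_inner_le_norm _ _).trans ?_
    rw [hU.iso]
  have hsum := (hT1.add hT2).add hT3
  rw [add_zero, add_zero] at hsum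
  refine hsum.congr fun g => ?_
  have h1 : U g v = U (k₁ g) (U (dgm (a g) (ha g)) (U (k₂ g) v)) := by
    have h2 : U (k₁ g * dgm (a g) (ha g) * k₂ g) v =
        U (k₁ g) (U (dgm (a g) (ha g)) (U (k₂ g) v)) := by
      rw [map_mul, map_mul]
      rfl
    rw [← h2, ← hg g]
  rw [h1, rep_inner hU (k₁ g) _ w, map_sub (U (dgm (a g) (ha g))), inner_sub_right,
    inner_sub_left]
  ring

end Pool.Agent.H400.IE
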